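import Mathlib
import Pool.Agent.Lib.helper23.TmE

namespace Pool.Agent.Results.MP_15e1ec_an.NotUniform

open Filter Topology

variable {X : Type} [NormedAddCommGroup X] [NormedSpace ℝ X]

/-- `e` is a normalized Schauder basis of `X` with biorthogonal functionals `e'`. -/
def IsNormBasis (e : ℕ → X) (e' : ℕ → X →L[ℝ] ℝ) : Prop :=
  (∀ k, ‖e k‖ = 1) ∧ (∀ j k, e' j (e k) = if j = k then 1 else 0) ∧
    ∀ x, Tendsto (fun n => ∑ k ∈ Finset.range n, e' k x • e k) atTop (𝓝 x)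

/-- The factorization property. -/
def Fact (e : ℕ → X) (e' : ℕ → X →L[ℝ] ℝ) : Prop :=
  ∀ T : X →L[ℝ] X, (∃ δ : ℝ, 0 < δ ∧ ∀ k, δ ≤ |e' k (T (e k))|) →
    ∃ R S : X →L[ℝ] X, S ∘L T ∘L R = ContinuousLinearMap.id ℝ X

/-- The uniform factorization property. -/
def UnifFact (e : ℕ → X) (e' : ℕ → X →L[ℝ] ℝ) : Prop :=
  ∀ δ : ℝ, 0 < δ → ∃ K : ℝ, 1 ≤ K ∧ ∀ T : X →L[ℝ] X, (∀ k, δ ≤ |e' k (T (e k))|) →
    ∀ ε : ℝ, 0 < ε → ∃ R S : X →L[ℝ] X,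
      S ∘L T ∘L R = ContinuousLinearMap.id ℝ X ∧ ‖R‖ * ‖S‖ ≤ K + ε

open Pool.Agent.Lib.helper23 in
theorem result : ∃ (X : Type) (_ : NormedAddCommGroup X) (_ : NormedSpace ℝ X)
    (_ : CompleteSpace X) (e : ℕ → X) (e' : ℕ → X →L[ℝ] ℝ),
    IsNormBasis e e' ∧ Fact e e' ∧ ¬ UnifFact e e' := by
  obtain ⟨X, i1, i2, i3, e, e', h, hbi, hd⟩ := TmC.exists_tm
  refine ⟨X, i1, i2, i3, e, e', ⟨fun k => le_antisymm (h.norm_e k) ?_, hbi,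
    TmC.tendsto_P h hbi hd⟩, fun T ⟨δ, hδ, hT⟩ => TmB.main h hbi hd T δ hδ hT, fun H => ?_⟩
  · simpa [hbi] using TmB.coef_le h hbi hd k (e k)
  · obtain ⟨K, -, hK⟩ := H 1 one_pos
    obtain ⟨T, h1, h2⟩ := TmE.not_unif h hbi hd (K + 1)
    obtain ⟨R, S, h3, h4⟩ := hK T (fun k => by simp [h1]) 1 one_pos
    exact absurd (h2 R S h3) (not_lt.2 h4)

end Pool.Agent.Results.MP_15e1ec_an.NotUniform
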